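import Mathlib

/-!
# Project GF (MP_766b49_co): the exact constant for girth at least 5. Definitions and goals

Paper proof: /team-store/MP_766b49_co_proof_helper25.md
-/

set_option autoImplicit false

namespace Pool.Agent.Helper25.GF

open Finset

/-- number of the elements of `I` below `t` -/
def kk (I : Finset ℕ) (t : ℕ) : ℕ := (I.filter (· < t)).card

/-- `∑_{t ∈ I, 1 ≤ t < T} k(t)/t` -/
noncomputable def En (I : Finset ℕ) (T : ℕ) : ℝ :=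
  ∑ t ∈ I.filter (fun t => 0 < t ∧ t < T), (kk I t : ℝ) / t

/-- `∑_{t ∈ I, 1 ≤ t} k(t)/t²` -/
noncomputable def E2 (I : Finset ℕ) : ℝ := ∑ t ∈ I.filter (0 < ·), (kk I t : ℝ) / (t : ℝ) ^ 2

/-- weight `∑_{t ∈ I, 1 ≤ t} 1/t` -/
noncomputable def Wt (I : Finset ℕ) : ℝ := ∑ t ∈ I.filter (0 < ·), (1 : ℝ) / t

/-- choices: the vertex `t + 1` chooses `d` times one of `0, …, t` -/
abbrev Om (d n : ℕ) := (t : Fin n) → Fin d → Fin ((t : ℕ) + 1)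

/-- the vertices chosen by `b` -/
def ch {d n : ℕ} (ω : Om d n) (b : ℕ) : Finset ℕ :=
  if h : 0 < b ∧ b ≤ n then univ.image (fun j => ((ω ⟨b - 1, by omega⟩ j : Fin _) : ℕ)) else ∅

open Classical in
/-- probability -/
noncomputable def Pr {d n : ℕ} (E : Om d n → Prop) : ℝ :=
  ((univ.filter E).card : ℝ) / Fintype.card (Om d n)

/-- adjacency -/
def Ad {d n : ℕ} (ω : Om d n) (a b : ℕ) : Prop := a ∈ ch ω b ∨ b ∈ ch ω a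

/-- independent set -/
def Idp {d n : ℕ} (ω : Om d n) (I : Finset ℕ) : Prop := ∀ b ∈ I, ∀ a ∈ ch ω b, a ∉ I

/-- `t, a 0, …, a m` is a cycle with the largest vertex `t` -/
def Cy {d n : ℕ} (ω : Om d n) (t m : ℕ) (a : Fin (m + 1) → ℕ) : Prop :=
  Function.Injective a ∧ (∀ i, a i < t) ∧ a 0 ∈ ch ω t ∧ a (Fin.last m) ∈ ch ω t ∧
    ∀ i : Fin m, Ad ω (a i.castSucc) (a i.succ)

/-- `t` is the largest vertex of a cycle with fewer than `g` vertices -/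
def Bad {d n : ℕ} (ω : Om d n) (g t : ℕ) : Prop :=
  ∃ m, 1 ≤ m ∧ m + 2 < g ∧ ∃ a : Fin (m + 1) → ℕ, Cy ω t m a

/-! ### Deterministic part -/

/-- **ENB** PROOF. Induction on `T`. First `En I T ≤ T` for all `T` (at most `T` terms, each
`kk I t / t ≤ 1`), which is enough for `T ≤ T₀`. Let `T + 1 > T₀`, so `T₀ ≤ T + 1`. If
`η * (T + 1) ≤ kk I (T + 1)` use the hypothesis. Otherwise, if `T ∉ I` or `T = 0` then
`En I (T + 1) = En I T` and `kk I T ≤ kk I (T + 1)`. If `T ∈ I`, `T > 0` then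
`kk I (T + 1) = kk I T + 1`, `En I (T + 1) = En I T + kk I T / T`, and
`kk I T < η (T + 1) - 1 ≤ η T`, so the new term is at most `η ≤ c`. -/
def ENB : Prop := ∀ (I : Finset ℕ) (c η : ℝ) (T₀ N : ℕ), 0 ≤ η → η ≤ 1 → η ≤ c →
  (∀ T : ℕ, T₀ ≤ T → T ≤ N → η * T ≤ kk I T → En I T ≤ c * kk I T) →
  ∀ T : ℕ, T ≤ N → En I T ≤ c * kk I T + T₀

/-- **ABA** PROOF. Multiply the hypothesis for `T` by `1/(T-1) - 1/T > 0` and add over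
`2 ≤ T ≤ N` (`Finset.Ico 2 (N+1)`). Exchange the sums:
`∑_T (1/(T-1) - 1/T) En I T = ∑_{t ∈ I, t ≥ 1} (k(t)/t) (1/t - 1/N)` (telescoping over
`t < T ≤ N`), in the same way `∑_T (..) kk I T ≤ ∑_{t ∈ I, t ≥ 1} 1/t + 1` (the `1` for the element
`0` of `I`), `∑_T (..) b ≤ b`. Finally `∑_{t ∈ I, t ≥ 1} (k(t)/t)/N ≤ 1` since `k(t) ≤ t` and there are
at most `N` terms. -/
def ABA : Prop := ∀ (I : Finset ℕ) (N : ℕ) (a b : ℝ), I ⊆ range N → 1 ≤ N → 0 ≤ a → 0 ≤ b →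
  (∀ T ≤ N, En I T ≤ a * kk I T + b) → E2 I ≤ a * (Wt I + 1) + b + 1

/-- **ABB** PROOF. `2 k(t) [t ∈ I] = k(t+1)² - k(t)² - [t ∈ I]`, so
`2 E2 I = ∑_{1 ≤ t < N} (k(t+1)² - k(t)²)/t² - ∑_{t ∈ I, t ≥ 1} 1/t²`; summation by parts:
`∑_{1 ≤ t < N} (k(t+1)² - k(t)²)/t² ≥ ∑_{2 ≤ t < N} k(t)² (1/(t-1)² - 1/t²) - k(1)²`,
`1/(t-1)² - 1/t² ≥ 2/t³`, `k(1) ≤ 1`, `∑ 1/t² ≤ 2`. (Induction on `N` is easiest: for all `N`,
`∑_{t ∈ Ico 2 N} k(t)²/t³ + (if 2 ≤ N then k(N)²/(2 (N-1)²) else 0) ≤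
∑_{t ∈ I, 1 ≤ t < N} k(t)/t² + 2 - 1/N`-like statement; any proof is welcome.) -/
def ABB : Prop := ∀ (I : Finset ℕ) (N : ℕ), I ⊆ range N →
  ∑ t ∈ Ico 2 N, (kk I t : ℝ) ^ 2 / (t : ℝ) ^ 3 ≤ E2 I + 2

/-- **ABC** PROOF. Summation by parts: `∑_{t ∈ I, t ≥ 1} 1/t = ∑_{1 ≤ t < N} (k(t+1) - k(t))/t ≤
k(N)/(N-1) + ∑_{2 ≤ t < N} k(t) (1/(t-1) - 1/t)`, `k(N)/(N-1) ≤ N/(N-1) ≤ 2` and
`k(t)/(t(t-1)) - k(t)/t² = k(t)/(t²(t-1)) ≤ 1/(t(t-1))`, whose sum is at most `1`. -/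
def ABC : Prop := ∀ (I : Finset ℕ) (N : ℕ), I ⊆ range N →
  Wt I ≤ 3 + ∑ t ∈ Ico 2 N, (kk I t : ℝ) / (t : ℝ) ^ 2

/-- **DET** USES ENB, ABA, ABB, ABC. PROOF. ENB with the given constants: `En I T ≤ c kk I T + T₀` for
`T ≤ N`. ABA: `E2 I ≤ c (Wt I + 1) + T₀ + 1`. Let `Y = ∑_{2 ≤ t < N} k(t)/t²`,
`Z = ∑_{2 ≤ t < N} k(t)²/t³`. ABB: `Z ≤ E2 I + 2`, ABC: `Wt I ≤ 3 + Y`. For every `t`:
`k/t² ≤ (c/t + k²/(c t³))/2` (AM-GM) so `Y ≤ (c log N)/2 + Z/(2c)` (`∑_{2 ≤ t < N} 1/t ≤ log N`), so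
`Y ≤ (c log N)/2 + Y/2 + 2 + (T₀+3)/(2c)`, `Y ≤ c log N + 4 + (T₀+3)/c`. -/
def DET : Prop := ∀ (I : Finset ℕ) (c η : ℝ) (T₀ N : ℕ), 0 < c → 0 ≤ η → η ≤ 1 → η ≤ c →
  I ⊆ range N → 1 ≤ N →
  (∀ T : ℕ, T₀ ≤ T → T ≤ N → η * T ≤ kk I T → En I T ≤ c * kk I T) →
  Wt I ≤ c * Real.log N + 7 + (T₀ + 3) / c

/-! ### Random part -/

/-- **PIN** PROOF. The event is a product: `ω t` is restricted only for `t + 1 ∈ I`, and then every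
`ω t j` avoids the `kk I (t + 1)` elements of `I` below `t + 1`. So (`Fintype.card_piFinset`) the
probability is `∏_{b ∈ I, 1 ≤ b ≤ n} ((b - kk I b)/b)^d ≤ ∏ exp (- d kk I b / b)`. -/
def PIN : Prop := ∀ (d n : ℕ) (I : Finset ℕ), I ⊆ range (n + 1) →
  Pr (fun ω : Om d n => Idp ω I) ≤ Real.exp (- (d * En I (n + 1)))

/-- **EDG** PROOF. Fix for every edge `e ∈ F` the index `c e : Fin d` with which `e.2` chooses `e.1`
(`d ^ F.card` possibilities, union bound). For given `c` the event `∀ e ∈ F, ω (e.2 - 1) (c e) = e.1`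
prescribes one value for each pair `(e.2, c e)`; if two edges have the same pair they have
different first ends and the event is empty; otherwise the probability is `∏ 1/e.2`
(`Fintype.card_piFinset` twice). Or by induction on `F` for the functions `ω t` separately. -/
def EDG : Prop := ∀ (d n : ℕ) (F : Finset (ℕ × ℕ)), (∀ e ∈ F, e.1 < e.2 ∧ e.2 ≤ n) →
  Pr (fun ω : Om d n => ∀ e ∈ F, e.1 ∈ ch ω e.2) ≤ ∏ e ∈ F, ((d : ℝ) / e.2)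

/-- **UNB** PROOF. `choose T k ≤ (e T / k)^k` (`Nat.choose_le_pow_div` and `k! ≥ (k/e)^k`), so each
term is at most `exp (- δ k log (e T / k)) ≤ exp (- δ k)` (`log (e T / k) ≥ 1` for `k ≤ T`), and
for `η T ≤ k` this is at most `exp (- δ k / 2) exp (- δ η T / 2)`; geometric sums. -/
def UNB : Prop := ∀ (δ η : ℝ), 0 < δ → 0 < η → ∃ T₀ : ℕ, 1 ≤ T₀ ∧ ∀ N : ℕ,
  ∑ T ∈ Icc T₀ N, ∑ k ∈ (Icc 1 T).filter (fun k : ℕ => η * T ≤ k),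
    (T.choose k : ℝ) * Real.exp (- ((1 + δ) * k * Real.log (Real.exp 1 * T / k))) ≤ 1 / 4

/-- **EX1** USES PIN, UNB. PROOF. Union bound over `T`, `k = A.card`, `A ⊆ range T`
(`powersetCard`), each event has probability at most `exp (- d En A (n + 1))`,
`En A (n + 1) = En A T` for `A ⊆ range T`, `T ≤ n + 1`. -/
def EX1 : Prop := ∀ (d : ℕ) (δ η : ℝ), 0 < δ → 0 < η → ∃ T₀ : ℕ, 1 ≤ T₀ ∧ ∀ n : ℕ,
  Pr (fun ω : Om d n => ∃ T : ℕ, T₀ ≤ T ∧ T ≤ n + 1 ∧ ∃ A : Finset ℕ, A ⊆ range T ∧ Idp ω A ∧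
    0 < A.card ∧ η * T ≤ A.card ∧
    (1 + δ) * A.card * Real.log (Real.exp 1 * T / A.card) < d * En A T) ≤ 1 / 4

/-- **PAS** PROOF. Induction on `m` (`Fin.consEquiv`/`Fin.snocEquiv` or
`Fin.prod_univ_castSucc` with the sum over the last value): for `a < t`,
`∑_{b < t} 1/max 1 (max a b) ≤ (a+1)/max 1 a + ∑_{a < b < t} 1/b ≤ 2 + 1 + log t`. For `m = 0` the sum is
`t`. -/
def PAS : Prop := ∀ (m t : ℕ), 1 ≤ t →
  ∑ a ∈ Fintype.piFinset (fun _ : Fin (m + 1) => range t),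
    ∏ i : Fin m, (1 : ℝ) / (max 1 (max (a i.castSucc) (a i.succ)) : ℕ) ≤
    t * (3 + Real.log t) ^ m

/-- **CYP** USES EDG, PAS. PROOF. Union bound over `a : Fin (m + 1) → range t` injective (`m ≥ 1`, so
`a 0 ≠ a (last m)`): the event `Cy ω t m a` says that the `m + 2` edges `(a 0, t)`, `(a (last m), t)`,
`(min, max)` of `a i.castSucc, a i.succ` are present (`Ad`, and `x ∈ ch ω y` implies `x < y`). These
pairs are different since `a` is injective and `a i < t`, so the product in EDG is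
`(d/t)² ∏ d/max (a i.castSucc) (a i.succ)`. Then PAS. -/
def CYP : Prop := ∀ (d n m t : ℕ), 1 ≤ m → 1 ≤ t → t ≤ n →
  Pr (fun ω : Om d n => ∃ a : Fin (m + 1) → ℕ, Cy ω t m a) ≤
    (d : ℝ) ^ (m + 2) * (3 + Real.log t) ^ m / t

/-- **EX2** USES CYP. PROOF. Union bound over `m`: `Pr (Bad ω g t) ≤ ∑_{m + 2 < g} (..)/t ≤ C (3 + log t)^g / t ≤
C' / √t`, so the sum is at most `C' ∑ t^(-3/2) ≤ K/4`. -/
def EX2 : Prop := ∀ (d g : ℕ), ∃ K : ℝ, 0 < K ∧ ∀ n : ℕ,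
  ∑ t ∈ Icc 1 n, Pr (fun ω : Om d n => Bad ω g t) / t ≤ K / 4

/-- **EXI** USES EX1, EX2. PROOF. The average over `ω` of `[the event of EX1] + (1/K) ∑_{t bad} 1/t`
is at most `1/4 + 1/4 < 1`, so it is less than `1` for some `ω` (`K` from EX2). -/
def EXI : Prop := ∀ (d g : ℕ) (δ η : ℝ), 0 < δ → 0 < η → ∃ (T₀ : ℕ) (K : ℝ), 1 ≤ T₀ ∧ 0 < K ∧
  ∀ n : ℕ, ∃ ω : Om d n, (∀ T : ℕ, T₀ ≤ T → T ≤ n + 1 → ∀ A : Finset ℕ, A ⊆ range T → Idp ω A →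
      0 < A.card → η * T ≤ A.card →
      d * En A T ≤ (1 + δ) * A.card * Real.log (Real.exp 1 * T / A.card)) ∧
    ∀ B : Finset ℕ, B ⊆ Icc 1 n → (∀ t ∈ B, Bad ω g t) → ∑ t ∈ B, (1 : ℝ) / t ≤ K

/-- the graph without the edges at bad vertices -/
def GG {d n : ℕ} (ω : Om d n) (g : ℕ) : SimpleGraph (Fin (n + 1)) where
  Adj a b := a ≠ b ∧ Ad ω a b ∧ ¬ Bad ω g a ∧ ¬ Bad ω g b
  symm := ⟨fun a b h => ⟨h.1.symm, h.2.1.symm, h.2.2.2, h.2.2.1⟩⟩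
  loopless := ⟨fun a h => h.1 rfl⟩

/-- **GIR** PROOF. Let `w` be a cycle of length `ℓ < g`. Let `t` be the largest vertex of `w`, rotate `w` to
start at `t` (`Walk.rotate`, `IsCycle.rotate`), let `a i = w.getVert (i + 1)`, `i = 0, …, ℓ - 2`
(`m = ℓ - 2`). `a` is injective (`IsCycle.getVert_injOn`), `a i < t` (vertices of `w` different from `t`),
consecutive vertices are adjacent, `t` and `a 0`, `a (last m)` are adjacent and `a 0 < t`, so `t` has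
chosen `a 0` (`x ∈ ch ω y` implies `x < y`). So `t` is bad, but a vertex with an edge is not. -/
def GIR : Prop := ∀ (d n g : ℕ) (ω : Om d n), (g : ℕ∞) ≤ (GG ω g).egirth

/-- **DEG** PROOF. `v = ` the largest element of `S`; its neighbours in `S` are in `ch ω v`, which has at
most `d` elements (image of `Fin d`). -/
def DEG : Prop := ∀ (d n g : ℕ) (ω : Om d n), ∀ S : Finset (Fin (n + 1)), S.Nonempty →
  ∃ v ∈ S, ∀ B : Finset (Fin (n + 1)), (∀ u ∈ B, u ∈ S ∧ (GG ω g).Adj v u) → B.card ≤ d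

/-- **WAV** (weights give lower bounds). PROOF. `∑_v x_v ≤ ∑_v x_v ∑_{I ∋ v} w I = ∑_I w I ∑_{v ∈ I} x_v ≤
(∑ w I) M`. -/
def WAV : Prop := ∀ (V : Type) [Fintype V] [DecidableEq V] (G : SimpleGraph V) (x : V → ℝ)
  (M : ℝ), (∀ v, 0 ≤ x v) →
  (∀ I : Finset V, G.IsIndepSet (I : Set V) → ∑ v ∈ I, x v ≤ M) →
  ∀ w : Finset V → ℝ, (∀ I, 0 ≤ w I) → (∀ I, w I ≠ 0 → G.IsIndepSet (I : Set V)) →
  (∀ v : V, 1 ≤ ∑ I ∈ Finset.univ.filter (fun I : Finset V => v ∈ I), w I) →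
  ∑ v, x v ≤ M * ∑ I, w I

/-! ### Upper bound -/

/-- **SYM** PROOF. Induction on `m` (for all `F`). `m = 0`: both sides are `1`. Step: the identity
`(m + 1) e_{m+1}(F) = ∑_{v ∈ F} x v e_m(F.erase v)` (count pairs `v ∈ T`), so with `S = ∑_F x`:
`(m+1)! e_{m+1}(F) = ∑_v x v m! e_m(F.erase v) ≥ ∑_v x v (S - x v - m κ)^m ≥ S (S - (m+1) κ)^m ≥
(S - (m+1) κ)^(m+1)`. -/
def SYM : Prop := ∀ (m : ℕ) (F : Finset ℕ) (x : ℕ → ℝ) (κ : ℝ), (∀ v ∈ F, 0 ≤ x v ∧ x v ≤ κ) →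
  0 ≤ κ → m * κ ≤ ∑ v ∈ F, x v →
  (∑ v ∈ F, x v - m * κ) ^ m ≤ (m.factorial : ℝ) * ∑ T ∈ F.powersetCard m, ∏ v ∈ T, x v

/-- **PAR** (choice of the constants). PROOF. Let `a = 1 - θ`, `δ` small in terms of `ε` (`(1-δ)² (1+ε) ≥ 1`), `m`
with `2 (1 - δ/4)^m ≤ δ`, `η` small in terms of `δ`, `m`, `κ = η d^(-θ)`, `q = (1-δ) a log d / d`. As
`d → ∞`: `D = (1-κ) log (κ/q) = (1-κ) (a log d + log η - log ((1-δ) a) - log log d)`, so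
`dq/(D - m κ) → (1-δ)/(1-η)` or `1-δ`, at most `1 - δ/4` for large `d`, and
`(1-κ)^(-d^θ m²) ≤ exp (2 η m²) ≤ 2`. So `lam ≤ 2 (1-δ/4)^m ≤ δ` and
`((1 - lam) q)⁻¹ ≤ (1-δ)⁻² d/(a log d)`. -/
def PAR : Prop := ∀ (θ ε : ℝ), 0 ≤ θ → θ < 1 → 0 < ε → ∃ (m d₀ : ℕ), 2 ≤ d₀ ∧
  ∀ d : ℕ, d₀ ≤ d → ∃ κ q lam : ℝ, 0 < κ ∧ κ < 1 ∧ 0 < q ∧ q < κ ∧ 0 ≤ lam ∧ lam < 1 ∧
    m * κ < (1 - κ) * Real.log (κ / q) ∧
    (∀ r : ℕ, (r : ℝ) ≤ (d : ℝ) ^ θ →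
      (d * q) ^ m * ((1 - κ)⁻¹) ^ (r * m ^ 2) ≤
        lam * ((1 - κ) * Real.log (κ / q) - m * κ) ^ m) ∧
    ((1 - lam) * q)⁻¹ ≤ (1 + ε) / (1 - θ) * (d / Real.log d)

/-- **UPP** (the upper bound). USES SYM, PAR and `moment` of Helper25/GF/Upper. PROOF. As
`few_triangles`, `exists_weights`, `exists_distribution`, `prob_bound` of Helper60/HC, with the `m`-th moment:
if `q M > κ` then `S > D = (1-κ) log (κ/q)` (`MM_le_exp`), so by SYM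
`(D - mκ)^m [q M > κ] ≤ m! ∑_{T ⊆ N i, |T| = m} ∏_{v ∈ T} x_v`, and `E (M ∏ x_v) ≤ q^m ((1-κ)⁻¹)^(r m²)` by
`moment` (`ov ≤ r m²`: no common neighbours of adjacent vertices, at most `r` of two others),
`m! (choose |N i| m) ≤ d^m`; so the probability of `i` is at least `(1 - lam) q`. -/
def UPP : Prop := ∀ (θ ε : ℝ), 0 ≤ θ → θ < 1 → 0 < ε → ∃ d₀ : ℕ, 2 ≤ d₀ ∧
  ∀ d : ℕ, d₀ ≤ d → ∀ (V : Type) (_ : Fintype V) (G : SimpleGraph V), G.CliqueFree 3 →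
    (∀ u v : V, u ≠ v → ∀ S : Finset V, (∀ x ∈ S, G.Adj u x ∧ G.Adj v x) →
      (S.card : ℝ) ≤ (d : ℝ) ^ θ) →
    (∀ S : Finset V, S.Nonempty → ∃ v ∈ S, ∀ B : Finset V, (∀ u ∈ B, u ∈ S ∧ G.Adj v u) →
      B.card ≤ d) →
    ∃ w : Finset V → ℝ, (∀ I, 0 ≤ w I) ∧ (∀ I, w I ≠ 0 → G.IsIndepSet (I : Set V)) ∧
      (∀ v : V, ∀ F : Finset (Finset V), (∀ I, I ∈ F ↔ v ∈ I) → 1 ≤ ∑ I ∈ F, w I) ∧
      ∑ I, w I ≤ (1 + ε) / (1 - θ) * (d / Real.log d)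

end Pool.Agent.Helper25.GF
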