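import Mathlib

/-!
# Project GF (MP_766b49_co): girth at least 5 implies no triangles and codegrees at most one
-/

set_option autoImplicit false

namespace Pool.Agent.Helper25.GF

theorem cliqueFree_of_girth {V : Type} (G : SimpleGraph V) (h : 5 ≤ G.egirth) :
    G.CliqueFree 3 := by
  intro s hs
  obtain ⟨a, w, hw, hl⟩ := SimpleGraph.is3Clique_iff_exists_cycle_length_three.1 ⟨s, hs⟩
  have h1 := h.trans (SimpleGraph.egirth_le_length hw)
  rw [hl] at h1
  exact absurd h1 (by norm_num)

theorem codeg_of_girth {V : Type} (G : SimpleGraph V) (h : 5 ≤ G.egirth) (u v x y : V)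
    (huv : u ≠ v) (hux : G.Adj u x) (hvx : G.Adj v x) (huy : G.Adj u y) (hvy : G.Adj v y) :
    x = y := by
  by_contra hxy
  have hw : (SimpleGraph.Walk.cons hux (SimpleGraph.Walk.cons hvx.symm
      (SimpleGraph.Walk.cons hvy (SimpleGraph.Walk.cons huy.symm SimpleGraph.Walk.nil)))).IsCycle := by
    have h1 := hux.ne
    have h2 := hvx.ne
    have h3 := huy.ne
    have h4 := hvy.ne
    rw [SimpleGraph.Walk.cons_isCycle_iff]
    constructor
    · rw [SimpleGraph.Walk.isPath_def]
      simp only [SimpleGraph.Walk.support_cons, SimpleGraph.Walk.support_nil, List.nodup_cons,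
        List.mem_cons, List.not_mem_nil, or_false, not_or, List.nodup_nil, and_true,
        not_false_eq_true]
      exact ⟨⟨h2.symm, hxy, h1.symm⟩, ⟨h4, huv.symm⟩, h3.symm⟩
    · simp only [SimpleGraph.Walk.edges_cons, SimpleGraph.Walk.edges_nil, List.mem_cons,
        List.not_mem_nil, or_false, Sym2.eq_iff, not_or, not_and]
      refine ⟨⟨fun _ h => h1 (by tauto), fun h => (huv h).elim⟩, ⟨fun h => (huv h).elim,
        fun h => (h3 h).elim⟩, ⟨fun h => (h3 h).elim, fun _ h => hxy h⟩⟩
  have h1 := h.trans (SimpleGraph.egirth_le_length hw)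
  simp only [SimpleGraph.Walk.length_cons, SimpleGraph.Walk.length_nil] at h1
  exact absurd h1 (by norm_num)

end Pool.Agent.Helper25.GF
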