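import Pool.Agent.Helper25.GF.Goals

/-!
# Project GF (MP_766b49_co): the lower bound
-/

set_option autoImplicit false

namespace Pool.Agent.Helper25.GF

open Finset

theorem ch_lt {d n : ℕ} (ω : Om d n) (a b : ℕ) (h : a ∈ ch ω b) : a < b := by
  unfold ch at h
  split_ifs at h with hb
  · obtain ⟨j, _, rfl⟩ := mem_image.1 h
    have := (ω ⟨b - 1, by omega⟩ j).2
    have h2 : ((ω ⟨b - 1, by omega⟩ j : Fin _) : ℕ) < (b - 1) + 1 := this
    omega
  · simp at h

theorem kk_filter (J : Finset ℕ) (T t : ℕ) (h : t ≤ T) : kk (J.filter (· < T)) t = kk J t := by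
  unfold kk
  congr 1
  ext x
  simp only [mem_filter]
  constructor
  · rintro ⟨⟨h1, _⟩, h2⟩
    exact ⟨h1, h2⟩
  · rintro ⟨h1, h2⟩
    exact ⟨⟨h1, by omega⟩, h2⟩

theorem En_filter (J : Finset ℕ) (T : ℕ) : En (J.filter (· < T)) T = En J T := by
  unfold En
  have e : (J.filter (· < T)).filter (fun t => 0 < t ∧ t < T) =
      J.filter (fun t => 0 < t ∧ t < T) := by
    ext x
    simp only [mem_filter]
    tauto
  rw [e]
  refine sum_congr rfl fun t ht => ?_
  rw [kk_filter J T t (mem_filter.1 ht).2.2.le]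

/-- harmonic sums -/
theorem harm (n : ℕ) : Real.log (n + 1 : ℕ) ≤ ∑ t ∈ Icc 1 n, (1 : ℝ) / t := by
  have h := log_add_one_le_harmonic n
  rw [harmonic_eq_sum_Icc] at h
  push_cast at h ⊢
  simpa [one_div] using h

open Classical in
/-- the weights of independent sets of `GG` -/
theorem weight_bound (hDET : DET) (d g n : ℕ) (δ : ℝ) (hd : 16 ≤ d) (hδ : 0 < δ)
    (T₀ : ℕ) (K : ℝ) (hT₀ : 1 ≤ T₀) (ω : Om d n)
    (h1 : ∀ T : ℕ, T₀ ≤ T → T ≤ n + 1 → ∀ A : Finset ℕ, A ⊆ range T → Idp ω A →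
      0 < A.card → (Real.log d / d) * T ≤ A.card →
      d * En A T ≤ (1 + δ) * A.card * Real.log (Real.exp 1 * T / A.card))
    (h2 : ∀ B : Finset ℕ, B ⊆ Icc 1 n → (∀ t ∈ B, Bad ω g t) → ∑ t ∈ B, (1 : ℝ) / t ≤ K)
    (I : Finset (Fin (n + 1))) (hI : (GG ω g).IsIndepSet (I : Set (Fin (n + 1)))) :
    ∑ v ∈ I, (if (v : ℕ) = 0 then 0 else (1 : ℝ) / (v : ℕ)) ≤
      (1 + δ) * (Real.log d / d) * Real.log (n + 1 : ℕ) + 7 +
        (T₀ + 3) / ((1 + δ) * (Real.log d / d)) + K := by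
  have hd0 : (0 : ℝ) < d := by
    have : (16 : ℝ) ≤ d := by exact_mod_cast hd
    linarith
  have hd16 : (16 : ℝ) ≤ d := by exact_mod_cast hd
  -- `log d ≥ e`
  have hlog : Real.exp 1 ≤ Real.log d := by
    have h3 : Real.log 16 ≤ Real.log d := Real.log_le_log (by norm_num) hd16
    have h4 : Real.log 16 = 4 * Real.log 2 := by
      rw [show (16 : ℝ) = 2 ^ 4 by norm_num, Real.log_pow]
      norm_num
    have h5 := Real.log_two_gt_d9
    have h6 := Real.exp_one_lt_d9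
    linarith
  have hlog0 : 0 < Real.log d := lt_of_lt_of_le (Real.exp_pos 1) hlog
  set Λ : ℝ := Real.log d / d with hΛ
  have hΛ0 : 0 < Λ := div_pos hlog0 hd0
  have hΛ1 : Λ ≤ 1 := by
    rw [hΛ, div_le_one hd0]
    have := Real.log_le_sub_one_of_pos hd0
    linarith
  set J : Finset ℕ := I.image (fun v : Fin (n + 1) => (v : ℕ)) with hJ
  have hJr : J ⊆ range (n + 1) := by
    intro t ht
    obtain ⟨v, _, rfl⟩ := mem_image.1 ht
    exact mem_range.2 v.2
  set J' : Finset ℕ := J.filter (fun t => ¬ Bad ω g t) with hJ'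
  have hJ'r : J' ⊆ range (n + 1) := (filter_subset _ _).trans hJr
  have hid : Idp ω J' := by
    intro b hb a ha haJ
    have hab := ch_lt ω a b ha
    obtain ⟨hb1, hb2⟩ := mem_filter.1 hb
    obtain ⟨ha1, ha2⟩ := mem_filter.1 haJ
    obtain ⟨vb, hvb, rfl⟩ := mem_image.1 hb1
    obtain ⟨va, hva, rfl⟩ := mem_image.1 ha1
    have hne : va ≠ vb := by
      intro e
      subst e
      exact lt_irrefl _ hab
    exact hI (mem_coe.2 hva) (mem_coe.2 hvb) hne ⟨hne, Or.inl ha, ha2, hb2⟩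
  have hc0 : 0 < (1 + δ) * Λ := mul_pos (by linarith) hΛ0
  have hW := hDET J' ((1 + δ) * Λ) Λ T₀ (n + 1) hc0 hΛ0.le hΛ1 (by nlinarith) hJ'r (by omega) (by
    intro T hT1 hT2 hT3
    have hT0 : (0 : ℝ) < T := by
      have : 0 < T := by omega
      exact_mod_cast this
    have hcard : ((J'.filter (· < T)).card : ℝ) = kk J' T := rfl
    have hkpos : (0 : ℝ) < kk J' T := lt_of_lt_of_le (mul_pos hΛ0 hT0) hT3
    have h3 := h1 T hT1 hT2 (J'.filter (· < T)) (fun t ht => mem_range.2 (mem_filter.1 ht).2)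
      (by
        intro b hb a ha haJ
        exact hid b (mem_filter.1 hb).1 a ha (mem_filter.1 haJ).1)
      (by
        have : (0 : ℝ) < ((J'.filter (· < T)).card : ℝ) := by rw [hcard]; exact hkpos
        exact_mod_cast this)
      (by rw [hcard]; exact hT3)
    rw [En_filter, hcard] at h3
    have h4 : Real.log (Real.exp 1 * T / kk J' T) ≤ Real.log d := by
      refine Real.log_le_log (div_pos (mul_pos (Real.exp_pos 1) hT0) hkpos) ?_
      rw [div_le_iff₀ hkpos]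
      have h5 : Real.log d * T ≤ d * kk J' T := by
        have := mul_le_mul_of_nonneg_left hT3 hd0.le
        rw [hΛ] at this
        calc Real.log d * T = d * (Real.log d / d * T) := by field_simp
          _ ≤ _ := this
      nlinarith
    have h5 : d * En J' T ≤ (1 + δ) * kk J' T * Real.log d :=
      h3.trans (mul_le_mul_of_nonneg_left h4 (by positivity))
    rw [hΛ]
    have h6 : (1 + δ) * (Real.log d / d) * kk J' T = ((1 + δ) * kk J' T * Real.log d) / d := by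
      field_simp
    rw [h6, le_div_iff₀ hd0]
    linarith)
  -- the sum over `I`
  have hsum : ∑ v ∈ I, (if (v : ℕ) = 0 then 0 else (1 : ℝ) / (v : ℕ)) =
      ∑ t ∈ J.filter (0 < ·), (1 : ℝ) / t := by
    rw [sum_filter, hJ, sum_image (fun a _ b _ h => Fin.ext h)]
    refine sum_congr rfl fun v _ => ?_
    by_cases hv : (v : ℕ) = 0
    · rw [if_pos hv, if_neg (by omega)]
    · rw [if_neg hv, if_pos (by omega)]
  rw [hsum]
  have hsplit : ∑ t ∈ J.filter (0 < ·), (1 : ℝ) / t =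
      ∑ t ∈ (J.filter (0 < ·)).filter (fun t => ¬ Bad ω g t), (1 : ℝ) / t +
      ∑ t ∈ (J.filter (0 < ·)).filter (fun t => ¬ ¬ Bad ω g t), (1 : ℝ) / t :=
    (sum_filter_add_sum_filter_not _ _ _).symm
  rw [hsplit]
  have hA : ∑ t ∈ (J.filter (0 < ·)).filter (fun t => ¬ Bad ω g t), (1 : ℝ) / t = Wt J' := by
    unfold Wt
    rw [hJ', filter_filter, filter_filter]
    refine sum_congr ?_ fun _ _ => rfl
    ext x
    simp only [mem_filter]
    tauto
  have hB := h2 ((J.filter (0 < ·)).filter (fun t => ¬ ¬ Bad ω g t)) (by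
    intro t ht
    have h3 := (mem_filter.1 (mem_filter.1 ht).1)
    have h4 := mem_range.1 (hJr h3.1)
    exact mem_Icc.2 ⟨h3.2, by omega⟩) (by
    intro t ht
    exact not_not.1 (mem_filter.1 ht).2)
  rw [hA]
  push_cast at hW ⊢
  linarith

/-- **LOW** the lower bound -/
def LOW : Prop := ∀ (ε : ℝ) (g : ℕ), 0 < ε → ∀ d : ℕ, 16 ≤ d →
  ∃ (V : Type) (_ : Fintype V) (G : SimpleGraph V), (g : ℕ∞) ≤ G.egirth ∧
    (∀ S : Finset V, S.Nonempty → ∃ v ∈ S, ∀ B : Finset V, (∀ u ∈ B, u ∈ S ∧ G.Adj v u) →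
      B.card ≤ d) ∧
    ∀ w : Finset V → ℝ, (∀ I, 0 ≤ w I) → (∀ I, w I ≠ 0 → G.IsIndepSet (I : Set V)) →
      (∀ v : V, ∀ F : Finset (Finset V), (∀ I, I ∈ F ↔ v ∈ I) → 1 ≤ ∑ I ∈ F, w I) →
      (1 - ε) * (d / Real.log d) ≤ ∑ I, w I

theorem low (hDET : DET) (hEXI : EXI) (hGIR : GIR) (hDEG : DEG) (hWAV : WAV) : LOW := by
  classical
  intro ε g hε d hd
  have hd16 : (16 : ℝ) ≤ d := by exact_mod_cast hd
  have hd0 : (0 : ℝ) < d := by linarith
  have hlog0 : 0 < Real.log d := Real.log_pos (by linarith)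
  set Λ : ℝ := Real.log d / d with hΛ
  have hΛ0 : 0 < Λ := div_pos hlog0 hd0
  obtain ⟨T₀, K, hT₀, hK, hex⟩ := hEXI d g ε Λ hε hΛ0
  set C : ℝ := 7 + (T₀ + 3) / ((1 + ε) * Λ) + K with hC
  have hc0 : 0 < (1 + ε) * Λ := mul_pos (by linarith) hΛ0
  have hCpos : 0 < C := by
    have : 0 < ((T₀ : ℝ) + 3) / ((1 + ε) * Λ) := div_pos (by positivity) hc0
    rw [hC]
    linarith
  -- the number of vertices
  obtain ⟨n, hn⟩ : ∃ n : ℕ, C / (ε ^ 2 * Λ) ≤ Real.log (n + 1 : ℕ) ∧ 0 < Real.log (n + 1 : ℕ) := by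
    have h1 : Filter.Tendsto (fun n : ℕ => Real.log ((n + 1 : ℕ) : ℝ)) Filter.atTop
        Filter.atTop :=
      Real.tendsto_log_atTop.comp (tendsto_natCast_atTop_atTop.comp (Filter.tendsto_add_atTop_nat 1))
    exact ((h1.eventually_ge_atTop (C / (ε ^ 2 * Λ))).and (h1.eventually_gt_atTop 0)).exists
  obtain ⟨ω, hω1, hω2⟩ := hex n
  refine ⟨Fin (n + 1), inferInstance, GG ω g, hGIR d n g ω, hDEG d n g ω, ?_⟩
  intro w hw0 hw1 hw2
  have hM := weight_bound hDET d g n ε hd hε T₀ K hT₀ ω hω1 hω2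
  have h3 := hWAV (Fin (n + 1)) (GG ω g) (fun v => if (v : ℕ) = 0 then 0 else (1 : ℝ) / (v : ℕ))
    ((1 + ε) * Λ * Real.log (n + 1 : ℕ) + C) (by
      intro v
      beta_reduce
      split_ifs
      · exact le_rfl
      · positivity) (by
      intro I hI
      refine (hM I hI).trans (le_of_eq ?_)
      rw [hC]
      ring) w hw0 hw1 (by
      intro v
      exact hw2 v _ (fun I => by simp))
  have h4 : Real.log (n + 1 : ℕ) ≤
      ∑ v : Fin (n + 1), (if (v : ℕ) = 0 then 0 else (1 : ℝ) / (v : ℕ)) := by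
    refine (harm n).trans (le_of_eq ?_)
    rw [Fin.sum_univ_eq_sum_range (fun t => if t = 0 then (0 : ℝ) else 1 / (t : ℕ)) (n + 1),
      Finset.sum_range_succ']
    simp only [Nat.add_eq_zero_iff, one_ne_zero, and_false, if_false, if_true, add_zero]
    rw [← Finset.sum_image (s := range n) (g := fun t => t + 1) (f := fun t : ℕ => (1 : ℝ) / t)
      (fun a _ b _ h => Nat.succ_injective h)]
    refine sum_congr ?_ fun _ _ => rfl
    ext x
    simp only [mem_Icc, mem_image, mem_range]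
    constructor
    · rintro ⟨h5, h6⟩
      exact ⟨x - 1, by omega, by omega⟩
    · rintro ⟨y, h5, rfl⟩
      exact ⟨by omega, by omega⟩
  have h5 := h4.trans h3
  set L : ℝ := Real.log (n + 1 : ℕ) with hL
  set W : ℝ := ∑ I, w I with hWdef
  have hW0 : 0 ≤ W := sum_nonneg fun I _ => hw0 I
  by_cases hε1 : 1 ≤ ε
  · refine le_trans ?_ hW0
    exact mul_nonpos_of_nonpos_of_nonneg (by linarith) (div_pos hd0 hlog0).le
  · push Not at hε1
    have h6 : C ≤ ε ^ 2 * Λ * L := by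
      have := hn.1
      rw [div_le_iff₀ (by positivity)] at this
      linarith
    have h7 : (d : ℝ) / Real.log d = Λ⁻¹ := by
      rw [hΛ, inv_div]
    rw [h7]
    have h8 : L ≤ ((1 + ε) * Λ * L + ε ^ 2 * Λ * L) * W :=
      h5.trans (mul_le_mul_of_nonneg_right (by linarith) hW0)
    have hL0 : 0 < L := hn.2
    have h9 : 1 ≤ (1 + ε + ε ^ 2) * Λ * W := by
      have h10 : L * 1 ≤ L * ((1 + ε + ε ^ 2) * Λ * W) := by nlinarith
      exact le_of_mul_le_mul_left h10 hL0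
    have h11 : (1 - ε) * Λ⁻¹ * ((1 + ε + ε ^ 2) * Λ) ≤ 1 := by
      have h12 : (1 - ε) * Λ⁻¹ * ((1 + ε + ε ^ 2) * Λ) = 1 - ε ^ 3 := by
        field_simp
        ring
      rw [h12]
      have := pow_pos hε 3
      linarith
    have hP : 0 < (1 + ε + ε ^ 2) * Λ := by positivity
    have h13 : (1 - ε) * Λ⁻¹ * ((1 + ε + ε ^ 2) * Λ) ≤ W * ((1 + ε + ε ^ 2) * Λ) := by
      linarith
    exact le_of_mul_le_mul_right h13 hP

end Pool.Agent.Helper25.GF
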