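import Pool.Agent.Helper25.GF.Low
import Pool.Agent.Helper48.GF.ENB
import Pool.Agent.Helper85.GF.ABA
import Pool.Agent.Helper81.GF.ABB
import Pool.Agent.Helper95.GF.ABC
import Pool.Agent.Helper82.GF.DET
import Pool.Agent.Helper46.GF.PIN
import Pool.Agent.Helper86.GF.EDG
import Pool.Agent.Helper12.GF.UNB
import Pool.Agent.Helper55.GF.EX1
import Pool.Agent.Helper97.GF.PAS
import Pool.Agent.Helper64.GF.CYP
import Pool.Agent.Helper63.GF.EX2
import Pool.Agent.Helper79.GF.EXI
import Pool.Agent.Helper69.GF.GIR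
import Pool.Agent.Helper89.GF.DEG
import Pool.Agent.Helper49.GF.WAV

/-!
# Project GF (MP_766b49_co): assembly of the lower bound
-/

set_option autoImplicit false

namespace Pool.Agent.Helper25.GF

theorem det' : DET :=
  Pool.Agent.Helper82.GF.det Pool.Agent.Helper48.GF.enb Pool.Agent.Helper85.GF.aba
    Pool.Agent.Helper81.GF.abb Pool.Agent.Helper95.GF.abc

theorem ex1' : EX1 := Pool.Agent.Helper55.GF.ex1 Pool.Agent.Helper46.GF.pin
  Pool.Agent.Helper12.GF.unb

theorem cyp' : CYP := Pool.Agent.Helper64.GF.cyp Pool.Agent.Helper86.GF.edg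
  Pool.Agent.Helper97.GF.pas

theorem exi' : EXI := Pool.Agent.Helper79.GF.exi ex1' (Pool.Agent.Helper63.GF.ex2 cyp')

theorem low' : LOW := low det' exi' Pool.Agent.Helper69.GF.gir Pool.Agent.Helper89.GF.deg
  Pool.Agent.Helper49.GF.wav

end Pool.Agent.Helper25.GF
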