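import Pool.Agent.Helper60.HC.Order

/-!
# Project GF (MP_766b49_co): moments of the process, small codegrees
-/

set_option autoImplicit false

namespace Pool.Agent.Helper25.GF

open Finset Pool.Agent.Helper60.HC

variable {N : ℕ → Finset ℕ} {p : ℕ → ℝ} {κ : ℝ}

/-- product of two martingales, pointwise -/
theorem MM_mul_le (hκ : 0 ≤ κ) (hκ1 : κ < 1) (A B : Finset ℕ) (t : ℕ) (J : Finset ℕ) :
    MM N p κ A t J * MM N p κ B t J ≤
      MM N p κ (A ∪ B) t J * ((1 - κ)⁻¹) ^ ((A ∩ B).filter (· < t)).card := by
  have hκ' : 0 < 1 - κ := by linarith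
  induction t with
  | zero => simp [MM]
  | succ t ih =>
    have hx1 := xx_le (N := N) (p := p) hκ t J
    have hpos : 0 < 1 - xx N p κ t J := by linarith
    have hA0 := MM_nonneg (N := N) (p := p) hκ hκ1 A t J
    have hB0 := MM_nonneg (N := N) (p := p) hκ hκ1 B t J
    have hU0 := MM_nonneg (N := N) (p := p) hκ hκ1 (A ∪ B) t J
    have hc1 : 1 ≤ (1 - κ)⁻¹ := (one_le_inv₀ hκ').2 (by linarith)
    have hf : (A ∩ B).filter (· < t + 1) =
        if t ∈ A ∩ B then insert t ((A ∩ B).filter (· < t)) else (A ∩ B).filter (· < t) := by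
      split_ifs with h
      · ext x
        simp only [mem_filter, mem_insert]
        constructor
        · rintro ⟨h1, h2⟩
          rcases Nat.lt_succ_iff_lt_or_eq.1 h2 with h3 | h3
          · exact Or.inr ⟨h1, h3⟩
          · exact Or.inl h3
        · rintro (h1 | ⟨h1, h2⟩)
          · subst h1
            exact ⟨h, Nat.lt_succ_self _⟩
          · exact ⟨h1, Nat.lt_succ_of_lt h2⟩
      · ext x
        simp only [mem_filter]
        constructor
        · rintro ⟨h1, h2⟩
          rcases Nat.lt_succ_iff_lt_or_eq.1 h2 with h3 | h3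
          · exact ⟨h1, h3⟩
          · subst h3
            exact absurd h1 h
        · rintro ⟨h1, h2⟩
          exact ⟨h1, Nat.lt_succ_of_lt h2⟩
    rw [MM_succ, MM_succ, MM_succ]
    by_cases hA : t ∈ A
    · by_cases hB : t ∈ B
      · have hAB : t ∈ A ∩ B := mem_inter.2 ⟨hA, hB⟩
        have hU : t ∈ A ∪ B := mem_union_left _ hA
        rw [hf, if_pos hAB, card_insert_of_notMem (by simp), pow_succ]
        simp only [hA, hB, hU, if_true]
        by_cases hJ : t ∈ J
        · simp [hJ]
        · simp only [hJ, if_false]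
          have h1 : (1 - xx N p κ t J)⁻¹ ≤ (1 - κ)⁻¹ := inv_anti₀ hκ' (by linarith)
          have h2 : 0 ≤ (1 - xx N p κ t J)⁻¹ := (inv_pos.2 hpos).le
          calc MM N p κ A t J * (1 - xx N p κ t J)⁻¹ *
                (MM N p κ B t J * (1 - xx N p κ t J)⁻¹)
              = (MM N p κ A t J * MM N p κ B t J) *
                ((1 - xx N p κ t J)⁻¹ * (1 - xx N p κ t J)⁻¹) := by ring
            _ ≤ (MM N p κ (A ∪ B) t J *
                ((1 - κ)⁻¹) ^ ((A ∩ B).filter (· < t)).card) *
                ((1 - xx N p κ t J)⁻¹ * (1 - κ)⁻¹) :=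
                mul_le_mul ih (mul_le_mul_of_nonneg_left h1 h2) (mul_nonneg h2 h2)
                  (mul_nonneg hU0 (pow_nonneg (by linarith) _))
            _ = _ := by ring
      · have hAB : t ∉ A ∩ B := fun h => hB (mem_inter.1 h).2
        have hU : t ∈ A ∪ B := mem_union_left _ hA
        rw [hf, if_neg hAB]
        simp only [hA, hB, hU, if_true, if_false, mul_one]
        have h2 : 0 ≤ (if t ∈ J then 0 else (1 - xx N p κ t J)⁻¹) := by
          split_ifs
          · exact le_rfl
          · exact (inv_pos.2 hpos).le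
        have := mul_le_mul_of_nonneg_right ih h2
        linarith
    · by_cases hB : t ∈ B
      · have hAB : t ∉ A ∩ B := fun h => hA (mem_inter.1 h).1
        have hU : t ∈ A ∪ B := mem_union_right _ hB
        rw [hf, if_neg hAB]
        simp only [hA, hB, hU, if_true, if_false, mul_one]
        have h2 : 0 ≤ (if t ∈ J then 0 else (1 - xx N p κ t J)⁻¹) := by
          split_ifs
          · exact le_rfl
          · exact (inv_pos.2 hpos).le
        have := mul_le_mul_of_nonneg_right ih h2
        linarith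
      · have hAB : t ∉ A ∩ B := fun h => hA (mem_inter.1 h).1
        have hU : t ∉ A ∪ B := by
          rw [mem_union]
          rintro (h | h)
          · exact hA h
          · exact hB h
        rw [hf, if_neg hAB]
        simp only [hA, hB, hU, if_false, mul_one]
        exact ih

/-- the exponent -/
def ov (N : ℕ → Finset ℕ) (A T : Finset ℕ) : ℕ :=
  ∑ v ∈ T, (N v ∩ A).card + ∑ w ∈ T, ∑ v ∈ T.filter (· < w), (N v ∩ N w).card

/-- mixed moments -/
theorem moment (hκ : 0 ≤ κ) (hκ1 : κ < 1) (hp : ∀ t, 0 ≤ p t) (hN : ∀ i, ∀ j ∈ N i, j < i) :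
    ∀ (T A : Finset ℕ) (s : ℕ), (∀ v ∈ T, v < s) →
      EE N p κ s (fun J => MM N p κ A s J * ∏ v ∈ T, xx N p κ v J) ≤
        (∏ v ∈ T, p v) * ((1 - κ)⁻¹) ^ ov N A T := by
  have hκ' : 0 < 1 - κ := by linarith
  have hc1 : 1 ≤ (1 - κ)⁻¹ := (one_le_inv₀ hκ').2 (by linarith)
  intro T
  induction T using Finset.induction_on_max with
  | empty =>
    intro A s _
    simp only [prod_empty, mul_one, one_mul]
    rw [EE_MM hκ hκ1 hp hN]
    exact one_le_pow₀ hc1
  | insert w T hw ih =>
    intro A s hs
    have hwT : w ∉ T := fun h => lt_irrefl _ (hw w h)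
    have hws : w < s := hs w (mem_insert_self _ _)
    have hTw : ∀ v ∈ T, v < w := hw
    rw [EE_mart hκ hκ1 hp hN A w (fun J => ∏ v ∈ insert w T, xx N p κ v J) ?_ s hws.le]
    · have h1 : EE N p κ w (fun J => MM N p κ A w J * ∏ v ∈ insert w T, xx N p κ v J) ≤
          EE N p κ w (fun J => (p w * ((1 - κ)⁻¹) ^ (N w ∩ A).card) *
            (MM N p κ (A ∪ N w) w J * ∏ v ∈ T, xx N p κ v J)) := by
        refine EE_mono hκ hκ1 hp hN w _ _ fun J _ => ?_
        beta_reduce
        rw [prod_insert hwT]
        have hA0 := MM_nonneg (N := N) (p := p) hκ hκ1 A w J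
        have hP0 : 0 ≤ ∏ v ∈ T, xx N p κ v J :=
          prod_nonneg fun v _ => xx_nonneg hκ hκ1 hp v J
        have h2 := xx_le_MM (N := N) hκ hκ1 hp w J
        have h3 := MM_mul_le (N := N) (p := p) hκ hκ1 A (N w) w J
        have hU0 := MM_nonneg (N := N) (p := p) hκ hκ1 (A ∪ N w) w J
        have h4 : ((1 - κ)⁻¹) ^ ((A ∩ N w).filter (· < w)).card ≤
            ((1 - κ)⁻¹) ^ (N w ∩ A).card := by
          refine pow_le_pow_right₀ hc1 ?_
          rw [inter_comm (N w) A]
          exact card_le_card (filter_subset _ _)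
        calc MM N p κ A w J * (xx N p κ w J * ∏ v ∈ T, xx N p κ v J)
            = (MM N p κ A w J * xx N p κ w J) * ∏ v ∈ T, xx N p κ v J := by ring
          _ ≤ (MM N p κ A w J * (p w * MM N p κ (N w) w J)) * ∏ v ∈ T, xx N p κ v J :=
              mul_le_mul_of_nonneg_right (mul_le_mul_of_nonneg_left h2 hA0) hP0
          _ = p w * (MM N p κ A w J * MM N p κ (N w) w J) * ∏ v ∈ T, xx N p κ v J := by ring
          _ ≤ p w * (MM N p κ (A ∪ N w) w J * ((1 - κ)⁻¹) ^ (N w ∩ A).card) *
                ∏ v ∈ T, xx N p κ v J :=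
              mul_le_mul_of_nonneg_right (mul_le_mul_of_nonneg_left
                (h3.trans (mul_le_mul_of_nonneg_left h4 hU0)) (hp w)) hP0
          _ = _ := by ring
      refine h1.trans ?_
      rw [EE_const_mul]
      have h2 := ih (A ∪ N w) w hTw
      have hnn : 0 ≤ p w * ((1 - κ)⁻¹) ^ (N w ∩ A).card :=
        mul_nonneg (hp w) (pow_nonneg (by linarith) _)
      refine (mul_le_mul_of_nonneg_left h2 hnn).trans ?_
      have e : (p w * ((1 - κ)⁻¹) ^ (N w ∩ A).card) *
          ((∏ v ∈ T, p v) * ((1 - κ)⁻¹) ^ ov N (A ∪ N w) T) =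
          (p w * ∏ v ∈ T, p v) * ((1 - κ)⁻¹) ^ ((N w ∩ A).card + ov N (A ∪ N w) T) := by
        rw [pow_add]
        ring
      rw [e, prod_insert hwT]
      refine mul_le_mul_of_nonneg_left (pow_le_pow_right₀ hc1 ?_)
        (mul_nonneg (hp w) (prod_nonneg fun v _ => hp v))
      -- the exponents
      unfold ov
      rw [sum_insert hwT, sum_insert hwT]
      have h3 : ∑ v ∈ T, (N v ∩ (A ∪ N w)).card ≤
          ∑ v ∈ T, (N v ∩ A).card + ∑ v ∈ T, (N v ∩ N w).card := by
        rw [← sum_add_distrib]
        refine sum_le_sum fun v _ => ?_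
        rw [inter_union_distrib_left]
        exact card_union_le _ _
      have h4 : (insert w T).filter (· < w) = T := by
        ext x
        simp only [mem_filter, mem_insert]
        constructor
        · rintro ⟨h | h, h'⟩
          · omega
          · exact h
        · intro h
          exact ⟨Or.inr h, hTw x h⟩
      have h5 : ∀ u ∈ T, (insert w T).filter (· < u) = T.filter (· < u) := by
        intro u hu
        rw [filter_insert, if_neg]
        have := hTw u hu
        omega
      have h6 : ∑ u ∈ T, ∑ v ∈ (insert w T).filter (· < u), (N v ∩ N u).card =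
          ∑ u ∈ T, ∑ v ∈ T.filter (· < u), (N v ∩ N u).card :=
        sum_congr rfl fun u hu => by rw [h5 u hu]
      rw [h4, h6]
      omega
    · intro t ht J _
      refine prod_congr rfl fun v hv => xx_local v _ _ fun w' hw' => ?_
      refine mem_insert_lt t J w' ?_
      rcases mem_insert.1 hv with h | h
      · subst h
        omega
      · have := hTw v h
        omega

end Pool.Agent.Helper25.GF
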